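import Mathlib

set_option autoImplicit false

namespace Pool.Agent.MP_52d740_an

/-- the left shift -/
def sh (z : ℤ → ℕ) (m : ℤ) : ℕ := z (m + 1)

/-- the inverse shift -/
def hs (z : ℤ → ℕ) (m : ℤ) : ℕ := z (m - 1)

theorem sh_iter (x : ℤ → ℕ) (j : ℕ) :
    (fun (z : ℤ → ℕ) (m : ℤ) => z (m + 1))^[j] x = fun m => x (m + j) := by
  induction j with
  | zero => simp
  | succ j ih =>
    rw [Function.iterate_succ_apply', ih]
    funext m
    simp only [Nat.cast_add, Nat.cast_one]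
    congr 1
    ring

/-- period of the `m`-th orbit -/
def per (m : ℕ) : ℕ := m * 2 ^ m + 1

theorem per_pos (m : ℕ) : 0 < per m := Nat.succ_pos _

theorem per_inj {m m' : ℕ} (h : per m = per m') : m = m' := by
  have hmono : StrictMono per := by
    apply strictMono_nat_of_lt_succ
    intro n
    unfold per
    have h1 : 0 < 2 ^ n := by positivity
    rw [pow_succ]
    nlinarith
  exact hmono.injective h

/-- the symbol at residue `r` -/
def sym (m r : ℕ) : ℕ :=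
  if r = m * 2 ^ m then 2 else if Nat.testBit (r / m) (r % m) then 1 else 0

/-- the `m`-th periodic point -/
def pt (m : ℕ) (i : ℤ) : ℕ := sym m (i % (per m : ℤ)).toNat

theorem sym_lt (m r : ℕ) : sym m r < 3 := by
  unfold sym
  split_ifs <;> omega

/-- union of the orbits -/
def A : Set (ℤ → ℕ) := {x | ∃ (m : ℕ) (c : ℤ), x = fun i => pt m (i + c)}

/-- the subshift -/
def X : Set (ℤ → ℕ) := closure A

/-- the factor map -/
def pr (x : ℤ → ℕ) : ℤ → ℕ := fun i => x i / 2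

theorem continuous_sh : Continuous sh := by
  unfold sh; fun_prop

theorem continuous_hs : Continuous hs := by
  unfold hs; fun_prop

theorem continuous_pr : Continuous pr := by
  unfold pr
  refine continuous_pi fun i => ?_
  exact (continuous_of_discreteTopology (f := fun n : ℕ => n / 2)).comp (continuous_apply i)

theorem sh_mem_A {x : ℤ → ℕ} (hx : x ∈ A) : sh x ∈ A := by
  obtain ⟨m, c, rfl⟩ := hx
  refine ⟨m, c + 1, ?_⟩
  funext i
  simp only [sh]
  congr 1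
  ring

theorem hs_mem_A {x : ℤ → ℕ} (hx : x ∈ A) : hs x ∈ A := by
  obtain ⟨m, c, rfl⟩ := hx
  refine ⟨m, c - 1, ?_⟩
  funext i
  simp only [hs]
  congr 1
  ring

theorem sh_mem_X {x : ℤ → ℕ} (hx : x ∈ X) : sh x ∈ X :=
  map_mem_closure continuous_sh hx fun _ h => sh_mem_A h

theorem hs_mem_X {x : ℤ → ℕ} (hx : x ∈ X) : hs x ∈ X :=
  map_mem_closure continuous_hs hx fun _ h => hs_mem_A h

theorem hs_sh (x : ℤ → ℕ) : hs (sh x) = x := by
  funext i; simp [hs, sh]

theorem sh_hs (x : ℤ → ℕ) : sh (hs x) = x := by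
  funext i; simp [hs, sh]

theorem mem_X_iff (x : ℤ → ℕ) : x ∈ X ↔ sh x ∈ X :=
  ⟨sh_mem_X, fun h => by simpa [hs_sh] using hs_mem_X h⟩

theorem shift_mem_X {x : ℤ → ℕ} (hx : x ∈ X) (j : ℕ) : (fun m : ℤ => x (m + j)) ∈ X := by
  induction j with
  | zero => simpa using hx
  | succ j ih =>
    have := sh_mem_X ih
    have e : sh (fun m : ℤ => x (m + j)) = fun m : ℤ => x (m + (j + 1 : ℕ)) := by
      funext m
      simp only [sh]
      congr 1
      push_cast
      ring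
    rwa [e] at this

theorem isClosed_lt : IsClosed {x : ℤ → ℕ | ∀ i, x i < 3} := by
  have : {x : ℤ → ℕ | ∀ i, x i < 3} = Set.pi Set.univ (fun _ => Set.Iio 3) := by
    ext x; simp
  rw [this]
  exact isClosed_set_pi fun _ _ => isClosed_discrete _

theorem X_lt {x : ℤ → ℕ} (hx : x ∈ X) (i : ℤ) : x i < 3 := by
  have h : X ⊆ {x : ℤ → ℕ | ∀ i, x i < 3} := by
    apply closure_minimal _ isClosed_lt
    rintro _ ⟨m, c, rfl⟩ i
    exact sym_lt _ _
  exact h hx i

theorem isCompact_X : IsCompact X := by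
  have hc : IsCompact (Set.pi Set.univ (fun _ : ℤ => Set.Iio 3) : Set (ℤ → ℕ)) :=
    isCompact_univ_pi fun _ => (Set.finite_Iio 3).isCompact
  refine hc.of_isClosed_subset isClosed_closure ?_
  intro x hx i _
  exact X_lt hx i

/-- the factor -/
def Y : Set (ℤ → ℕ) := pr '' X

theorem isClosed_Y : IsClosed Y := (isCompact_X.image continuous_pr).isClosed

theorem mem_Y_iff (y : ℤ → ℕ) : y ∈ Y ↔ sh y ∈ Y := by
  constructor
  · rintro ⟨x, hx, rfl⟩
    exact ⟨sh x, sh_mem_X hx, rfl⟩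
  · rintro ⟨x, hx, h⟩
    refine ⟨hs x, hs_mem_X hx, ?_⟩
    have : hs (pr x) = hs (sh y) := by rw [h]
    rw [hs_sh] at this
    rw [← this]
    rfl

theorem Y_lt {y : ℤ → ℕ} (hy : y ∈ Y) (i : ℤ) : y i < 3 := by
  obtain ⟨x, hx, rfl⟩ := hy
  have := X_lt hx i
  simp only [pr]
  omega

/-- symbols of the factored points -/
theorem pr_pt (m : ℕ) (c i : ℤ) :
    pr (fun i => pt m (i + c)) i = if (per m : ℤ) ∣ i + c + 1 then 1 else 0 := by
  have hp : (0 : ℤ) < per m := by exact_mod_cast per_pos m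
  simp only [pr, pt, sym]
  set r : ℤ := (i + c) % (per m : ℤ) with hr
  have h0 : 0 ≤ r := Int.emod_nonneg _ hp.ne'
  have h1 : r < per m := Int.emod_lt_of_pos _ hp
  have hdiv : (per m : ℤ) ∣ i + c + 1 ↔ r = (per m : ℤ) - 1 := by
    constructor
    · intro h
      have h2 : (per m : ℤ) ∣ r + 1 := by
        have : r + 1 = (i + c + 1) - per m * ((i + c) / per m) := by
          rw [hr, Int.emod_def]; ring
        rw [this]
        exact dvd_sub h (dvd_mul_right _ _)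
      have h3 := Int.le_of_dvd (by omega) h2
      omega
    · intro h
      have : i + c + 1 = (r + 1) + per m * ((i + c) / per m) := by
        rw [hr, Int.emod_def]; ring
      rw [this, h]
      simp
  have hper : (per m : ℤ) - 1 = ((m * 2 ^ m : ℕ) : ℤ) := by
    unfold per; push_cast; ring
  by_cases h : r = (per m : ℤ) - 1
  · have h4 : r.toNat = m * 2 ^ m := by
      rw [h, hper, Int.toNat_natCast]
    rw [if_pos (hdiv.mpr h), if_pos h4]
  · have h4 : ¬ r.toNat = m * 2 ^ m := by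
      intro h5
      apply h
      rw [hper, ← h5, Int.toNat_of_nonneg h0]
    rw [if_neg (fun h' => h (hdiv.mp h')), if_neg h4]
    split_ifs <;> rfl


/-- sites where a block of length `per m` between consecutive marks is seen -/
def pat (m : ℕ) : Set (ℤ → ℕ) :=
  {y | ∃ a : ℕ, a < per m ∧ y (-(a : ℤ)) = 1 ∧ y (-(a : ℤ) + per m) = 1 ∧
    ∀ l : ℕ, 0 < l → l < per m → y (-(a : ℤ) + l) = 0}

theorem isClopen_pat (m : ℕ) : IsClopen (pat m) := by
  have hc : ∀ (i : ℤ) (v : ℕ), IsClopen {y : ℤ → ℕ | y i = v} := by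
    intro i v
    exact (isClopen_discrete {v}).preimage (continuous_apply i)
  have e : pat m = ⋃ a ∈ Finset.range (per m), ({y : ℤ → ℕ | y (-(a : ℤ)) = 1} ∩
      ({y : ℤ → ℕ | y (-(a : ℤ) + per m) = 1} ∩
        ⋂ l ∈ Finset.Ioo 0 (per m), {y : ℤ → ℕ | y (-(a : ℤ) + l) = 0})) := by
    ext y
    simp only [pat, Set.mem_ofPred_eq, Finset.mem_range, Set.mem_iUnion, Set.mem_inter_iff,
      Set.mem_iInter, Finset.mem_Ioo, exists_prop, and_imp]
  rw [e]
  refine isClopen_biUnion_finset fun a _ => ?_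
  refine (hc _ _).inter ((hc _ _).inter ?_)
  exact isClopen_biInter_finset fun l _ => hc _ _

/-- one orbit -/
def Orb (m : ℕ) : Set (ℤ → ℕ) := {x | ∃ c : ℤ, x = fun i => pt m (i + c)}

theorem pt_add_per (m : ℕ) (i k : ℤ) : pt m (i + per m * k) = pt m i := by
  simp [pt]

theorem orb_finite (m : ℕ) : (Orb m).Finite := by
  have : Orb m ⊆ (fun c : ℕ => (fun i : ℤ => pt m (i + c))) '' (Set.Iio (per m)) := by
    rintro _ ⟨c, rfl⟩
    have hp : (0 : ℤ) < per m := by exact_mod_cast per_pos m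
    refine ⟨(c % (per m : ℤ)).toNat, ?_, ?_⟩
    · have h0 : 0 ≤ c % (per m : ℤ) := Int.emod_nonneg _ hp.ne'
      have h1 : c % (per m : ℤ) < per m := Int.emod_lt_of_pos _ hp
      simp only [Set.mem_Iio]
      omega
    · have h0 : 0 ≤ c % (per m : ℤ) := Int.emod_nonneg _ hp.ne'
      funext i
      simp only
      rw [Int.toNat_of_nonneg h0]
      conv_rhs => rw [← Int.emod_add_mul_ediv c (per m : ℤ)]
      rw [← add_assoc, pt_add_per]
  exact ((Set.finite_Iio _).image _).subset this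

theorem A_pat {x : ℤ → ℕ} {m : ℕ} (hx : x ∈ A) (hp : pr x ∈ pat m) : x ∈ Orb m := by
  obtain ⟨m', c, rfl⟩ := hx
  obtain ⟨a, ha, h1, h2, h3⟩ := hp
  rw [pr_pt] at h1 h2
  have d1 : (per m' : ℤ) ∣ -(a : ℤ) + c + 1 := by
    by_contra h; rw [if_neg h] at h1; omega
  have d2 : (per m' : ℤ) ∣ -(a : ℤ) + per m + c + 1 := by
    by_contra h; rw [if_neg h] at h2; omega
  have d3 : (per m' : ℤ) ∣ per m := by
    have := dvd_sub d2 d1
    have e : -(a : ℤ) + per m + c + 1 - (-(a : ℤ) + c + 1) = per m := by ring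
    rwa [e] at this
  have d4 : per m' ≤ per m := Nat.le_of_dvd (per_pos m) (by exact_mod_cast d3)
  have d5 : ¬ per m' < per m := by
    intro hlt
    have := h3 (per m') (per_pos m') hlt
    rw [pr_pt, if_pos] at this
    · omega
    · have e : -(a : ℤ) + per m' + c + 1 = (-(a : ℤ) + c + 1) + per m' := by ring
      rw [e]
      exact dvd_add d1 (dvd_refl _)
  have : m = m' := per_inj (by omega)
  subst this
  exact ⟨c, rfl⟩

theorem X_pat {x : ℤ → ℕ} {m : ℕ} (hx : x ∈ X) (hp : pr x ∈ pat m) : x ∈ Orb m := by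
  have hO : IsOpen (pr ⁻¹' pat m) := (isClopen_pat m).isOpen.preimage continuous_pr
  have h1 : x ∈ closure (pr ⁻¹' pat m ∩ A) := hO.inter_closure ⟨hp, hx⟩
  have h2 : closure (pr ⁻¹' pat m ∩ A) ⊆ Orb m := by
    apply closure_minimal _ (orb_finite m).isClosed
    rintro y ⟨hy1, hy2⟩
    exact A_pat hy2 hy1
  exact h2 h1

theorem Orb_of_shift {x : ℤ → ℕ} {m : ℕ} (j : ℕ)
    (h : (fun i : ℤ => x (i + j)) ∈ Orb m) : x ∈ Orb m := by
  obtain ⟨c, hc⟩ := h
  refine ⟨c - j, ?_⟩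
  funext i
  have := congrFun hc (i - j)
  simp only [sub_add_cancel] at this
  rw [this]
  congr 1
  ring

theorem Orb_subset_X (m : ℕ) : Orb m ⊆ X := by
  rintro _ ⟨c, rfl⟩
  exact subset_closure ⟨m, c, rfl⟩

theorem pr_mem_pat (m : ℕ) (c : ℤ) : pr (fun i => pt m (i + c)) ∈ pat m := by
  have hp : (0 : ℤ) < per m := by exact_mod_cast per_pos m
  have h0 : 0 ≤ (c + 1) % (per m : ℤ) := Int.emod_nonneg _ hp.ne'
  have h1 : (c + 1) % (per m : ℤ) < per m := Int.emod_lt_of_pos _ hp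
  have hd : (per m : ℤ) ∣ -((c + 1) % (per m : ℤ)) + c + 1 := by
    refine ⟨(c + 1) / (per m : ℤ), ?_⟩
    have := Int.emod_add_mul_ediv (c + 1) (per m : ℤ)
    linarith
  refine ⟨((c + 1) % (per m : ℤ)).toNat, by omega, ?_, ?_, ?_⟩
  · rw [pr_pt, Int.toNat_of_nonneg h0, if_pos hd]
  · rw [pr_pt, Int.toNat_of_nonneg h0, if_pos]
    have e : -((c + 1) % (per m : ℤ)) + per m + c + 1 =
      (-((c + 1) % (per m : ℤ)) + c + 1) + per m := by ring
    rw [e]
    exact dvd_add hd (dvd_refl _)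
  · intro l hl hl'
    rw [pr_pt, Int.toNat_of_nonneg h0, if_neg]
    intro h
    have e : -((c + 1) % (per m : ℤ)) + l + c + 1 =
      (-((c + 1) % (per m : ℤ)) + c + 1) + l := by ring
    rw [e] at h
    have h2 : (per m : ℤ) ∣ l := by
      have := dvd_sub h hd
      simpa using this
    have h3 := Int.le_of_dvd (by exact_mod_cast hl) h2
    omega


/-- the partition function -/
noncomputable def Z (S : Set (ℤ → ℕ)) (g : (ℤ → ℕ) → ℝ) (n : ℕ) : ℝ :=
  ∑ w : Fin n → Fin 3,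
    sSup ((fun x : ℤ → ℕ => Real.exp (∑ j ∈ Finset.range n,
      g ((fun (z : ℤ → ℕ) (m : ℤ) => z (m + 1))^[j] x))) ''
      {x : ℤ → ℕ | x ∈ S ∧ ∀ i : Fin n, x ((i : ℕ) : ℤ) = ((w i : ℕ))})

theorem Z_lower {S : Set (ℤ → ℕ)} {g : (ℤ → ℕ) → ℝ} {B : ℝ} {n : ℕ}
    (hS : ∀ x ∈ S, ∀ j : ℕ, g (fun i => x (i + j)) ≤ B) {ι : Type*} (U : Finset ι)
    (x : ι → (ℤ → ℕ)) (hx : ∀ u ∈ U, x u ∈ S) (hlt : ∀ u ∈ U, ∀ i, x u i < 3)
    (hinj : ∀ u ∈ U, ∀ v ∈ U, (∀ i : ℕ, i < n → x u i = x v i) → u = v) :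
    ∑ u ∈ U, Real.exp (∑ j ∈ Finset.range n, g (fun i => x u (i + j))) ≤ Z S g n := by
  classical
  set T : (Fin n → Fin 3) → ℝ := fun w =>
    sSup ((fun x : ℤ → ℕ => Real.exp (∑ j ∈ Finset.range n,
      g ((fun (z : ℤ → ℕ) (m : ℤ) => z (m + 1))^[j] x))) ''
      {x : ℤ → ℕ | x ∈ S ∧ ∀ i : Fin n, x ((i : ℕ) : ℤ) = ((w i : ℕ))}) with hT
  have hT0 : ∀ w, 0 ≤ T w := by
    intro w
    apply Real.sSup_nonneg
    rintro _ ⟨y, _, rfl⟩
    exact (Real.exp_pos _).le
  have hbdd : ∀ w : Fin n → Fin 3, BddAbove ((fun x : ℤ → ℕ => Real.exp (∑ j ∈ Finset.range n,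
      g ((fun (z : ℤ → ℕ) (m : ℤ) => z (m + 1))^[j] x))) ''
      {x : ℤ → ℕ | x ∈ S ∧ ∀ i : Fin n, x ((i : ℕ) : ℤ) = ((w i : ℕ))}) := by
    intro w
    refine ⟨Real.exp (∑ j ∈ Finset.range n, B), ?_⟩
    rintro _ ⟨y, hy, rfl⟩
    apply Real.exp_le_exp.mpr
    apply Finset.sum_le_sum
    intro j _
    rw [sh_iter]
    exact hS y hy.1 j
  set W : ι → (Fin n → Fin 3) := fun u i => Fin.ofNat 3 (x u ((i : ℕ) : ℤ)) with hW
  have hWv : ∀ u ∈ U, ∀ i : Fin n, ((W u i : Fin 3) : ℕ) = x u ((i : ℕ) : ℤ) := by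
    intro u hu i
    simp only [hW, Fin.ofNat_eq_cast, Fin.val_natCast]
    exact Nat.mod_eq_of_lt (hlt u hu _)
  have hWinj : Set.InjOn W U := by
    intro u hu v hv huv
    apply hinj u hu v hv
    intro i hi
    have h1 := hWv u hu ⟨i, hi⟩
    have h2 := hWv v hv ⟨i, hi⟩
    rw [huv] at h1
    exact h1.symm.trans h2
  have h1 : ∑ u ∈ U, Real.exp (∑ j ∈ Finset.range n, g (fun i => x u (i + j))) ≤
      ∑ u ∈ U, T (W u) := by
    apply Finset.sum_le_sum
    intro u hu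
    apply le_csSup (hbdd _)
    refine ⟨x u, ⟨hx u hu, fun i => (hWv u hu i).symm⟩, ?_⟩
    simp only [sh_iter]
  have h2 : ∑ u ∈ U, T (W u) = ∑ w ∈ U.image W, T w := by
    rw [Finset.sum_image]
    intro u hu v hv huv
    exact hWinj hu hv huv
  have h3 : ∑ w ∈ U.image W, T w ≤ ∑ w, T w :=
    Finset.sum_le_sum_of_subset_of_nonneg (Finset.subset_univ _) fun w _ _ => hT0 w
  calc _ ≤ ∑ u ∈ U, T (W u) := h1
    _ = ∑ w ∈ U.image W, T w := h2
    _ ≤ ∑ w, T w := h3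
    _ = Z S g n := rfl

theorem Z_upper {S : Set (ℤ → ℕ)} {g : (ℤ → ℕ) → ℝ} {n : ℕ} {a b : ℝ} (ha : 0 ≤ a) (hb : 0 ≤ b)
    (W : Finset (Fin n → Fin 3))
    (h : ∀ x ∈ S, ∀ w : Fin n → Fin 3, (∀ i : Fin n, x ((i : ℕ) : ℤ) = ((w i : ℕ))) →
      Real.exp (∑ j ∈ Finset.range n, g (fun i => x (i + j))) ≤ a + if w ∈ W then b else 0) :
    Z S g n ≤ 3 ^ n * a + W.card * b := by
  classical
  unfold Z
  calc _ ≤ ∑ w : Fin n → Fin 3, (a + if w ∈ W then b else 0) := by
        apply Finset.sum_le_sum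
        intro w _
        apply Real.sSup_le
        · rintro _ ⟨y, hy, rfl⟩
          simp only [sh_iter]
          exact h y hy.1 w hy.2
        · split_ifs <;> positivity
    _ = 3 ^ n * a + W.card * b := by
        rw [Finset.sum_add_distrib]
        simp [Finset.sum_ite_mem]

end Pool.Agent.MP_52d740_an
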