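import Pool.Agent.MP_52d740_an.Main

set_option autoImplicit false

/-!
# MP_52d740_an: a uniform gap between the two pressures
-/

open Filter Topology

namespace Pool.Agent.MP_52d740_an

/-- sums over a window of a periodic orbit with negative average -/
theorem gap_sum {F : (ℤ → ℕ) → ℝ} {B δ : ℝ} (hB0 : 0 ≤ B) (hδ : 0 < δ)
    (hB : ∀ x ∈ X, |F x| ≤ B) (m : ℕ)
    (hP : ∑ j ∈ Finset.range (per m), F (fun i => pt m (i + j)) = -(per m * δ)) (c : ℤ) (n : ℕ) :
    ∑ j ∈ Finset.range n, F (fun i => pt m (i + j + c)) ≤ -(n * δ) + per m * (B + δ) := by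
  obtain ⟨q, r, hr, rfl⟩ : ∃ q r : ℕ, r < per m ∧ n = q * per m + r :=
    ⟨n / per m, n % per m, Nat.mod_lt _ (per_pos m), by rw [mul_comm]; exact (Nat.div_add_mod _ _).symm⟩
  rw [Finset.sum_range_add]
  have h1 : ∑ j ∈ Finset.range (q * per m), F (fun i => pt m (i + j + c)) = q * -(per m * δ) := by
    have := sum_periodic_mul (p := per m) (f := fun k : ℤ => F (fun i => pt m (i + k)))
      (by
        intro k
        have : (fun i : ℤ => pt m (i + (k + per m))) = fun i => pt m (i + k) := by
          funext i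
          have := pt_add_per m (i + k) 1
          rw [mul_one] at this
          rw [← this]
          congr 1
          ring
        simp only [this]) c q
    rw [← hP, ← this]
    apply Finset.sum_congr rfl
    intro j _
    congr 1
    funext i
    congr 1
    ring
  have h2 : ∑ j ∈ Finset.range r, F (fun i => pt m (i + ((q * per m + j : ℕ) : ℤ) + c)) ≤ r * B := by
    calc _ ≤ ∑ j ∈ Finset.range r, B := by
          apply Finset.sum_le_sum
          intro j _
          refine (abs_le.mp (hB _ ?_)).2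
          refine Orb_subset_X m ⟨((q * per m + j : ℕ) : ℤ) + c, ?_⟩
          funext i
          rw [add_assoc]
      _ = r * B := by simp
  have hr' : (r : ℝ) ≤ per m := by exact_mod_cast hr.le
  rw [h1]
  push_cast at h2 ⊢
  nlinarith [mul_le_mul_of_nonneg_right hr' hB0, mul_le_mul_of_nonneg_right hr' hδ.le]

/-- the case of a periodic orbit with negative average -/
theorem gap_neg {F : (ℤ → ℕ) → ℝ} {B δ : ℝ} (hB0 : 0 ≤ B) (hδ : 0 < δ)
    (hB : ∀ x ∈ X, |F x| ≤ B) (m : ℕ)
    (hP : ∑ j ∈ Finset.range (per m), F (fun i => pt m (i + j)) = -(per m * δ)) (n : ℕ) :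
    Real.exp (n * (Real.log 3 + B + δ)) ≤
        Z Y ((pat m).indicator fun _ => Real.log 3 + B + δ) n ∧
      Z X (fun x => (pat m).indicator (fun _ => Real.log 3 + B + δ) (pr x) + F x) n ≤
        (1 + per m) * Real.exp (per m * (B + δ)) * Real.exp (n * (Real.log 3 + B)) := by
  classical
  set M : ℝ := Real.log 3 + B + δ with hM
  have hlog3 : 0 < Real.log 3 := Real.log_pos (by norm_num)
  have hM0 : 0 ≤ M := by positivity
  have hpp : (0 : ℝ) < per m := by exact_mod_cast per_pos m
  set φ : (ℤ → ℕ) → ℝ := (pat m).indicator (fun _ => M) with hφ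
  have hφle : ∀ y, φ y ≤ M := by
    intro y
    rw [hφ]
    exact Set.indicator_apply_le' (fun _ => le_refl _) (fun _ => hM0)
  constructor
  · have h1 := Z_lower (S := Y) (g := φ) (B := M) (n := n) (fun x _ j => hφle _)
      (Finset.univ : Finset Unit) (fun _ => pr (pt m))
      (fun _ _ => ⟨pt m, Orb_subset_X m ⟨0, by simp⟩, rfl⟩)
      (fun _ _ i => Y_lt ⟨pt m, Orb_subset_X m ⟨0, by simp⟩, rfl⟩ i) (fun _ _ _ _ _ => rfl)
    have h2 : ∀ j : ℕ, φ (fun i => pr (pt m) (i + j)) = M := by
      intro j
      have : (fun i : ℤ => pr (pt m) (i + j)) = pr (fun i => pt m (i + j)) := rfl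
      rw [this, hφ, Set.indicator_of_mem (pr_mem_pat m j)]
    simp only [h2, Finset.sum_const, Finset.card_range, nsmul_eq_mul, Finset.univ_unique,
      Finset.card_singleton, Nat.cast_one, one_mul] at h1
    exact h1
  · set g : (ℤ → ℕ) → ℝ := fun x => φ (pr x) + F x with hg
    set W : Finset (Fin n → Fin 3) := (Finset.range (per m)).image
      (fun (c : ℕ) (i : Fin n) => Fin.ofNat 3 (pt m ((i : ℕ) + c))) with hW
    have hWc : W.card ≤ per m := by
      refine Finset.card_image_le.trans ?_
      simp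
    have hup := Z_upper (S := X) (g := g) (n := n) (a := Real.exp (n * B))
      (b := Real.exp (per m * (B + δ)) * Real.exp (n * (M - δ))) (Real.exp_pos _).le
      (by positivity) W (by
        intro x hx w hw
        by_cases hO : x ∈ Orb m
        · have hwW : w ∈ W := by
            obtain ⟨c, rfl⟩ := hO
            rw [hW, Finset.mem_image]
            have hp : (0 : ℤ) < per m := by exact_mod_cast per_pos m
            have h0 : 0 ≤ c % (per m : ℤ) := Int.emod_nonneg _ hp.ne'
            have h1 : c % (per m : ℤ) < per m := Int.emod_lt_of_pos _ hp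
            refine ⟨(c % (per m : ℤ)).toNat, by simp; omega, ?_⟩
            funext i
            apply Fin.ext
            rw [Int.toNat_of_nonneg h0, ← hw i, Fin.ofNat_eq_cast, Fin.val_natCast]
            change _ = pt m (((i : ℕ) : ℤ) + c)
            conv_rhs => rw [← Int.emod_add_mul_ediv c (per m : ℤ)]
            rw [← add_assoc, pt_add_per]
            exact Nat.mod_eq_of_lt (sym_lt _ _)
          rw [if_pos hwW]
          have h1 : ∑ j ∈ Finset.range n, g (fun i => x (i + j)) ≤
              per m * (B + δ) + n * (M - δ) := by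
            obtain ⟨c, rfl⟩ := hO
            simp only [hg]
            rw [Finset.sum_add_distrib]
            have h2 : ∑ j ∈ Finset.range n, φ (pr fun i => pt m (i + j + c)) ≤ n * M := by
              calc _ ≤ ∑ j ∈ Finset.range n, M := Finset.sum_le_sum fun j _ => hφle _
                _ = n * M := by simp
            have h3 := gap_sum hB0 hδ hB m hP c n
            linarith
          have h5 := Real.exp_le_exp.mpr h1
          rw [Real.exp_add] at h5
          have h6 := (Real.exp_pos (n * B)).le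
          linarith
        · have h1 : ∑ j ∈ Finset.range n, g (fun i => x (i + j)) ≤ n * B := by
            calc _ ≤ ∑ j ∈ Finset.range n, B := by
                  apply Finset.sum_le_sum
                  intro j _
                  have hnp : (pr fun i => x (i + j)) ∉ pat m := by
                    intro hp
                    exact hO (Orb_of_shift j (X_pat (shift_mem_X hx j) hp))
                  simp only [hg, hφ]
                  rw [Set.indicator_of_notMem hnp, zero_add]
                  exact (abs_le.mp (hB _ (shift_mem_X hx j))).2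
              _ = n * B := by simp
          have h5 := Real.exp_le_exp.mpr h1
          have h6 : 0 ≤ if w ∈ W then Real.exp (per m * (B + δ)) * Real.exp (n * (M - δ)) else 0 := by
            split_ifs <;> positivity
          linarith)
    have h3n : (3 : ℝ) ^ n * Real.exp (n * B) = Real.exp (n * (Real.log 3 + B)) := by
      have : (3 : ℝ) ^ n = Real.exp (n * Real.log 3) := by
        rw [Real.exp_nat_mul, Real.exp_log (by norm_num)]
      rw [this, ← Real.exp_add]
      congr 1
      ring
    have hMδ : M - δ = Real.log 3 + B := by rw [hM]; ring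
    rw [hMδ, h3n] at hup
    refine hup.trans ?_
    have hE1 : 1 ≤ Real.exp (per m * (B + δ)) := Real.one_le_exp (by positivity)
    have hWc' : (W.card : ℝ) ≤ per m := by exact_mod_cast hWc
    have h8 : (W.card : ℝ) * (Real.exp (per m * (B + δ)) * Real.exp (n * (Real.log 3 + B))) ≤
        per m * (Real.exp (per m * (B + δ)) * Real.exp (n * (Real.log 3 + B))) :=
      mul_le_mul_of_nonneg_right hWc' (by positivity)
    have h9 : Real.exp (n * (Real.log 3 + B)) ≤
        Real.exp (per m * (B + δ)) * Real.exp (n * (Real.log 3 + B)) :=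
      le_mul_of_one_le_left (Real.exp_pos _).le hE1
    calc _ ≤ Real.exp (per m * (B + δ)) * Real.exp (n * (Real.log 3 + B)) +
          per m * (Real.exp (per m * (B + δ)) * Real.exp (n * (Real.log 3 + B))) := by linarith
      _ = _ := by ring

theorem gap_pos {g : (ℤ → ℕ) → ℝ} {B : ℝ} {n : ℕ} (hle : ∀ x ∈ X, ∀ j : ℕ, g (fun i => x (i + j)) ≤ B) :
    0 < Z X g n := by
  have h1 := Z_lower (S := X) (g := g) (B := B) (n := n) hle
    (Finset.univ : Finset Unit) (fun _ => pt 0) (fun _ _ => Orb_subset_X 0 ⟨0, by simp⟩)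
    (fun _ _ i => X_lt (Orb_subset_X 0 ⟨0, by simp⟩) i) (fun _ _ _ _ _ => rfl)
  refine lt_of_lt_of_le ?_ h1
  apply Finset.sum_pos
  · intro _ _; exact Real.exp_pos _
  · exact Finset.univ_nonempty

theorem pat_local (m : ℕ) (y y' : ℤ → ℕ) (h : ∀ i : ℤ, |i| ≤ (per m : ℤ) → y i = y' i) :
    y ∈ pat m ↔ y' ∈ pat m := by
  have key : ∀ y y' : ℤ → ℕ, (∀ i : ℤ, |i| ≤ (per m : ℤ) → y i = y' i) → y ∈ pat m → y' ∈ pat m := by
    rintro y y' h ⟨a, ha, h1, h2, h3⟩
    have ha' : (a : ℤ) < per m := by exact_mod_cast ha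
    refine ⟨a, ha, ?_, ?_, ?_⟩
    · rw [← h _ (by rw [abs_le]; omega)]; exact h1
    · rw [← h _ (by rw [abs_le]; omega)]; exact h2
    · intro l hl hl'
      have hl2 : (l : ℤ) < per m := by exact_mod_cast hl'
      rw [← h _ (by rw [abs_le]; omega)]
      exact h3 l hl hl'
  exact ⟨key y y' h, key y' y (fun i hi => (h i hi).symm)⟩

/-- for every continuous `F` the two pressures differ by a fixed positive amount at all large times -/
theorem gap {F : (ℤ → ℕ) → ℝ} (hF : ContinuousOn F X) :
    ∃ (U : Set (ℤ → ℕ)) (M c : ℝ), IsClopen U ∧ 0 ≤ M ∧ 0 < c ∧ (∀ᶠ n : ℕ in atTop,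
      c ≤ |Real.log (Z X (fun x => U.indicator (fun _ => M) (pr x) + F x) n) / n -
        Real.log (Z Y (U.indicator fun _ => M) n) / n|) ∧
      ∃ N : ℕ, ∀ y y' : ℤ → ℕ, (∀ i : ℤ, |i| ≤ N → y i = y' i) → (y ∈ U ↔ y' ∈ U) := by
  obtain ⟨B, hB⟩ := isCompact_X.exists_bound_of_continuousOn hF
  simp only [Real.norm_eq_abs] at hB
  have hB0 : 0 ≤ B := (abs_nonneg _).trans (hB (pt 0) (Orb_subset_X 0 ⟨0, by simp⟩))
  by_cases hall : ∀ m, 0 ≤ ∑ j ∈ Finset.range (per m), F (fun i => pt m (i + j))
  · have hlog2 : 0 < Real.log 2 := Real.log_pos (by norm_num)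
    refine ⟨∅, 0, Real.log 2 / 2, isClopen_empty, le_rfl, by positivity, ?_, 0, fun _ _ _ => Iff.rfl⟩
    have hlimX : Tendsto (fun m : ℕ => Real.log 2 - B / (m : ℝ)) atTop (𝓝 (Real.log 2 - 0)) := by
      apply Tendsto.const_sub
      exact Tendsto.div_atTop tendsto_const_nhds tendsto_natCast_atTop_atTop
    rw [sub_zero] at hlimX
    have hlimY : Tendsto (fun n : ℕ => 4 * (Real.log ((n + 2 : ℕ) : ℝ) / ((n + 2 : ℕ) : ℝ))) atTop
        (𝓝 (4 * 0)) := by
      apply Tendsto.const_mul
      have h1 : Tendsto (fun x : ℝ => Real.log x / x) atTop (𝓝 0) :=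
        Real.isLittleO_log_id_atTop.tendsto_div_nhds_zero
      have h2 : Tendsto (fun n : ℕ => ((n + 2 : ℕ) : ℝ)) atTop atTop :=
        tendsto_natCast_atTop_atTop.comp (tendsto_add_atTop_nat 2)
      exact h1.comp h2
    rw [mul_zero] at hlimY
    filter_upwards [eventually_gt_atTop 1,
      hlimX.eventually_const_le (show 3 * Real.log 2 / 4 < Real.log 2 by linarith),
      hlimY.eventually_le_const (show 0 < Real.log 2 / 4 by positivity)] with n hn h1n h2n
    have hn' : (0 : ℝ) < n := by exact_mod_cast (by omega : 0 < n)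
    have hn2 : (2 : ℝ) ≤ n := by exact_mod_cast hn
    have e1 : (fun x => (∅ : Set (ℤ → ℕ)).indicator (fun _ => (0 : ℝ)) (pr x) + F x) = F := by
      funext x
      simp
    have e2 : ((∅ : Set (ℤ → ℕ)).indicator fun _ => (0 : ℝ)) = fun _ => 0 := by
      funext x
      simp
    rw [e1, e2]
    have hX1 : 3 * Real.log 2 / 4 ≤ Real.log (Z X F n) / n := by
      have h1 := Z_X_lower hB n (by omega) (hall n)
      have h2 : Real.log (2 ^ n * Real.exp (-B)) ≤ Real.log (Z X F n) :=
        Real.log_le_log (by positivity) h1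
      rw [Real.log_mul (by positivity) (Real.exp_pos _).ne', Real.log_exp, Real.log_pow] at h2
      refine h1n.trans ?_
      calc Real.log 2 - B / n = (n * Real.log 2 + -B) / n := by field_simp; ring
        _ ≤ _ := by gcongr
    have hY1 : Real.log (Z Y (fun _ => 0) n) / n ≤ Real.log 2 / 4 := by
      refine le_trans ?_ h2n
      have hl0 : 0 ≤ Real.log ((n + 2 : ℕ) : ℝ) := Real.log_natCast_nonneg _
      have h1 : Real.log (Z Y (fun _ => 0) n) ≤ 2 * Real.log ((n + 2 : ℕ) : ℝ) := by
        rcases lt_or_ge 0 (Z Y (fun _ => 0) n) with h | h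
        · calc _ ≤ Real.log (((n + 2 : ℕ) : ℝ) ^ 2) := Real.log_le_log h (Z_Y_zero n)
            _ = _ := by rw [Real.log_pow]; norm_num
        · have h0 : 0 ≤ Z Y (fun _ => 0) n := by
            apply Finset.sum_nonneg
            intro w _
            apply Real.sSup_nonneg
            rintro _ ⟨y, _, rfl⟩
            exact (Real.exp_pos _).le
          rw [le_antisymm h h0, Real.log_zero]
          positivity
      rw [div_le_iff₀ hn']
      have h3 : (0 : ℝ) < ((n + 2 : ℕ) : ℝ) := by positivity
      calc Real.log (Z Y (fun _ => 0) n) ≤ 2 * Real.log ((n + 2 : ℕ) : ℝ) := h1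
        _ = 4 * (Real.log ((n + 2 : ℕ) : ℝ) / ((n + 2 : ℕ) : ℝ)) * (((n + 2 : ℕ) : ℝ) / 2) := by
          field_simp; ring
        _ ≤ 4 * (Real.log ((n + 2 : ℕ) : ℝ) / ((n + 2 : ℕ) : ℝ)) * n := by
          gcongr
          push_cast
          linarith
    refine le_trans ?_ (le_abs_self _)
    linarith
  · push Not at hall
    obtain ⟨m, hm⟩ := hall
    have hpp : (0 : ℝ) < per m := by exact_mod_cast per_pos m
    obtain ⟨δ, hδ⟩ : ∃ δ : ℝ, δ = -(∑ j ∈ Finset.range (per m), F (fun i => pt m (i + j))) / per m :=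
      ⟨_, rfl⟩
    have hδ0 : 0 < δ := by rw [hδ]; exact div_pos (by linarith) hpp
    have hP : ∑ j ∈ Finset.range (per m), F (fun i => pt m (i + j)) = -(per m * δ) := by
      rw [hδ]; field_simp
    have hlog3 : 0 < Real.log 3 := Real.log_pos (by norm_num)
    have hM0 : 0 ≤ Real.log 3 + B + δ := by positivity
    refine ⟨pat m, Real.log 3 + B + δ, δ / 2, isClopen_pat m, hM0, by positivity, ?_, per m,
      pat_local m⟩
    have hlim : Tendsto (fun n : ℕ => (Real.log (1 + per m) + per m * (B + δ)) / (n : ℝ)) atTop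
        (𝓝 0) := Tendsto.div_atTop tendsto_const_nhds tendsto_natCast_atTop_atTop
    filter_upwards [eventually_gt_atTop 0,
      hlim.eventually_le_const (show 0 < δ / 2 by positivity)] with n hn h1n
    have hn' : (0 : ℝ) < n := by exact_mod_cast hn
    obtain ⟨h1, h2⟩ := gap_neg hB0 hδ0 hB m hP n
    have hYl : Real.log 3 + B + δ ≤
        Real.log (Z Y ((pat m).indicator fun _ => Real.log 3 + B + δ) n) / n := by
      rw [le_div_iff₀ hn']
      have := Real.log_le_log (Real.exp_pos _) h1
      rw [Real.log_exp] at this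
      linarith
    have hpos : 0 < Z X (fun x => (pat m).indicator (fun _ => Real.log 3 + B + δ) (pr x) + F x) n := by
      apply gap_pos (B := (Real.log 3 + B + δ) + B)
      intro x hx j
      have h3 : (pat m).indicator (fun _ => Real.log 3 + B + δ) (pr fun i => x (i + j)) ≤
          Real.log 3 + B + δ := Set.indicator_apply_le' (fun _ => le_refl _) (fun _ => hM0)
      have h4 := (abs_le.mp (hB _ (shift_mem_X hx j))).2
      linarith
    have hXu : Real.log (Z X (fun x => (pat m).indicator (fun _ => Real.log 3 + B + δ) (pr x) + F x) n)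
        / n ≤ δ / 2 + (Real.log 3 + B) := by
      have h3 := Real.log_le_log hpos h2
      rw [Real.log_mul (by positivity) (Real.exp_pos _).ne', Real.log_mul (by positivity)
        (Real.exp_pos _).ne', Real.log_exp, Real.log_exp] at h3
      calc _ ≤ (Real.log (1 + per m) + per m * (B + δ) + n * (Real.log 3 + B)) / n := by gcongr
        _ = (Real.log (1 + per m) + per m * (B + δ)) / n + (Real.log 3 + B) := by field_simp
        _ ≤ _ := by linarith
    rw [abs_sub_comm]
    refine le_trans ?_ (le_abs_self _)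
    linarith

/-- the gap, with a locally constant test function -/
theorem gap' {F : (ℤ → ℕ) → ℝ} (hF : ContinuousOn F X) :
    ∃ (φ : (ℤ → ℕ) → ℝ) (N : ℕ) (c : ℝ),
      (∀ y y' : ℤ → ℕ, (∀ i : ℤ, |i| ≤ N → y i = y' i) → φ y = φ y') ∧ 0 < c ∧
      ∀ᶠ n : ℕ in atTop, c ≤ |Real.log (Z X (fun x => φ (pr x) + F x) n) / n -
        Real.log (Z Y φ n) / n| := by
  obtain ⟨U, M, c, hU, hM, hc, h, N, hN⟩ : ∃ (U : Set (ℤ → ℕ)) (M c : ℝ), IsClopen U ∧ 0 ≤ M ∧ 0 < c ∧
      (∀ᶠ n : ℕ in atTop,
        c ≤ |Real.log (Z X (fun x => U.indicator (fun _ => M) (pr x) + F x) n) / n -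
          Real.log (Z Y (U.indicator fun _ => M) n) / n|) ∧
      ∃ N : ℕ, ∀ y y' : ℤ → ℕ, (∀ i : ℤ, |i| ≤ N → y i = y' i) → (y ∈ U ↔ y' ∈ U) := gap hF
  refine ⟨U.indicator fun _ => M, N, c, ?_, hc, h⟩
  intro y y' hy
  have h1 := hN y y' hy
  by_cases h2 : y ∈ U
  · rw [Set.indicator_of_mem h2, Set.indicator_of_mem (h1.1 h2)]
  · rw [Set.indicator_of_notMem h2, Set.indicator_of_notMem (fun h3 => h2 (h1.2 h3))]

end Pool.Agent.MP_52d740_an
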