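import Pool.Agent.MP_52d740_an.Core

set_option autoImplicit false

namespace Pool.Agent.MP_52d740_an

open Filter Topology

theorem sum_periodic {p : ℕ} {f : ℤ → ℝ} (hf : ∀ i, f (i + p) = f i) (c : ℤ) :
    ∑ j ∈ Finset.range p, f (j + c) = ∑ j ∈ Finset.range p, f j := by
  have step : ∀ c : ℤ, ∑ j ∈ Finset.range p, f (j + (c + 1)) = ∑ j ∈ Finset.range p, f (j + c) := by
    intro c
    have h1 := Finset.sum_range_succ (fun j : ℕ => f (j + c)) p
    have h2 := Finset.sum_range_succ' (fun j : ℕ => f (j + c)) p
    rw [h1] at h2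
    have h3 : f (p + c) = f ((0 : ℕ) + c) := by
      rw [add_comm, hf]; simp
    have h4 : ∀ j : ℕ, f ((j : ℤ) + (c + 1)) = f (((j + 1 : ℕ) : ℤ) + c) := by
      intro j; congr 1; push_cast; ring
    simp only [h4]
    linarith
  induction c using Int.induction_on with
  | zero => simp
  | succ i ih => rw [step]; exact ih
  | pred i ih =>
    have := step (-(i : ℤ) - 1)
    rw [← this]
    simp only [sub_add_cancel]
    exact ih

theorem sum_periodic_mul {p : ℕ} {f : ℤ → ℝ} (hf : ∀ i, f (i + p) = f i) (c : ℤ) (q : ℕ) :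
    ∑ j ∈ Finset.range (q * p), f (j + c) = q * ∑ j ∈ Finset.range p, f j := by
  induction q with
  | zero => simp
  | succ q ih =>
    rw [Nat.succ_mul, Finset.sum_range_add, ih]
    have : ∀ j : ℕ, f (((q * p + j : ℕ) : ℤ) + c) = f ((j : ℤ) + (c + q * p)) := by
      intro j; congr 1; push_cast; ring
    simp only [this]
    rw [sum_periodic hf]
    push_cast
    ring

theorem per_sum_nonneg {F : (ℤ → ℕ) → ℝ} {B : ℝ} (hB0 : 0 ≤ B) (hB : ∀ x ∈ X, |F x| ≤ B)
    (H : ∀ φ : (ℤ → ℕ) → ℝ, ContinuousOn φ Y → ∃ L : ℝ,
      Tendsto (fun n : ℕ => Real.log (Z Y φ n) / (n : ℝ)) atTop (𝓝 L) ∧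
      Tendsto (fun n : ℕ => Real.log (Z X (fun x => φ (pr x) + F x) n) / (n : ℝ)) atTop (𝓝 L))
    (m : ℕ) : 0 ≤ ∑ j ∈ Finset.range (per m), F (fun i => pt m (i + j)) := by
  classical
  by_contra hneg
  push Not at hneg
  set P : ℝ := ∑ j ∈ Finset.range (per m), F (fun i => pt m (i + j)) with hP
  have hpp : (0 : ℝ) < per m := by exact_mod_cast per_pos m
  set δ : ℝ := -P / per m with hδ
  have hδ0 : 0 < δ := div_pos (by linarith) hpp
  have hPδ : P = -(per m * δ) := by
    rw [hδ]; field_simp
  set M : ℝ := Real.log 3 + B + δ with hM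
  have hlog3 : 0 < Real.log 3 := Real.log_pos (by norm_num)
  have hM0 : 0 ≤ M := by positivity
  set φ : (ℤ → ℕ) → ℝ := (pat m).indicator (fun _ => M) with hφ
  have hφc : Continuous φ := by
    apply continuous_indicator
    · simp [(isClopen_pat m).frontier_eq]
    · exact continuous_const.continuousOn
  have hφle : ∀ y, φ y ≤ M := by
    intro y
    rw [hφ]
    exact Set.indicator_apply_le' (fun _ => le_refl _) (fun _ => hM0)
  obtain ⟨L, hY, hX⟩ := H φ hφc.continuousOn
  -- lower bound through Y
  have hL1 : M ≤ L := by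
    refine ge_of_tendsto hY ?_
    filter_upwards [eventually_gt_atTop 0] with n hn
    have hn' : (0 : ℝ) < n := by exact_mod_cast hn
    have h1 := Z_lower (S := Y) (g := φ) (B := M) (n := n) (fun x _ j => hφle _)
      (Finset.univ : Finset Unit) (fun _ => pr (pt m))
      (fun _ _ => ⟨pt m, Orb_subset_X m ⟨0, by simp⟩, rfl⟩)
      (fun _ _ i => Y_lt ⟨pt m, Orb_subset_X m ⟨0, by simp⟩, rfl⟩ i) (fun _ _ _ _ _ => rfl)
    have h2 : ∀ j : ℕ, φ (fun i => pr (pt m) (i + j)) = M := by
      intro j
      have : (fun i : ℤ => pr (pt m) (i + j)) = pr (fun i => pt m (i + j)) := rfl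
      rw [this, hφ, Set.indicator_of_mem (pr_mem_pat m j)]
    simp only [h2, Finset.sum_const, Finset.card_range, nsmul_eq_mul, Finset.univ_unique,
      Finset.card_singleton, Nat.cast_one, one_mul] at h1
    rw [le_div_iff₀ hn']
    calc M * n = Real.log (Real.exp (n * M)) := by rw [Real.log_exp]; ring
      _ ≤ _ := Real.log_le_log (Real.exp_pos _) h1
  -- upper bound through X
  have hL2 : L ≤ M - δ := by
    have hq : Tendsto (fun q : ℕ => (q + 1) * per m) atTop atTop := by
      apply tendsto_atTop_mono (f := fun q : ℕ => q) _ tendsto_id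
      intro q
      nlinarith [per_pos m]
    have hX' := hX.comp hq
    have hlim : Tendsto (fun q : ℕ => Real.log (1 + per m) / (((q + 1) * per m : ℕ) : ℝ) + (M - δ))
        atTop (𝓝 (0 + (M - δ))) := by
      apply Tendsto.add_const
      exact Tendsto.div_atTop tendsto_const_nhds (tendsto_natCast_atTop_atTop.comp hq)
    rw [zero_add] at hlim
    refine le_of_tendsto_of_tendsto' hX' hlim ?_
    intro q
    simp only [Function.comp]
    set n : ℕ := (q + 1) * per m with hn
    have hn0 : 0 < n := by positivity [per_pos m]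
    have hn' : (0 : ℝ) < n := by exact_mod_cast hn0
    set g : (ℤ → ℕ) → ℝ := fun x => φ (pr x) + F x with hg
    have hgle : ∀ x ∈ X, ∀ j : ℕ, g (fun i => x (i + j)) ≤ M + B := by
      intro x hx j
      have h1 := hφle (pr fun i => x (i + j))
      have h2 := (abs_le.mp (hB _ (shift_mem_X hx j))).2
      simp only [hg]
      linarith
    have hpos : 0 < Z X g n := by
      have h1 := Z_lower (S := X) (g := g) (B := M + B) (n := n) hgle
        (Finset.univ : Finset Unit) (fun _ => pt m) (fun _ _ => Orb_subset_X m ⟨0, by simp⟩)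
        (fun _ _ i => X_lt (Orb_subset_X m ⟨0, by simp⟩) i) (fun _ _ _ _ _ => rfl)
      refine lt_of_lt_of_le ?_ h1
      apply Finset.sum_pos
      · intro _ _; exact Real.exp_pos _
      · exact Finset.univ_nonempty
    set W : Finset (Fin n → Fin 3) := (Finset.range (per m)).image
      (fun (c : ℕ) (i : Fin n) => Fin.ofNat 3 (pt m ((i : ℕ) + c))) with hW
    have hWc : W.card ≤ per m := by
      refine Finset.card_image_le.trans ?_
      simp
    have hup := Z_upper (S := X) (g := g) (n := n) (a := Real.exp (n * B))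
      (b := Real.exp (n * (M - δ))) (Real.exp_pos _).le (Real.exp_pos _).le W (by
        intro x hx w hw
        by_cases hO : x ∈ Orb m
        · have hwW : w ∈ W := by
            obtain ⟨c, rfl⟩ := hO
            rw [hW, Finset.mem_image]
            have hp : (0 : ℤ) < per m := by exact_mod_cast per_pos m
            have h0 : 0 ≤ c % (per m : ℤ) := Int.emod_nonneg _ hp.ne'
            have h1 : c % (per m : ℤ) < per m := Int.emod_lt_of_pos _ hp
            refine ⟨(c % (per m : ℤ)).toNat, by simp; omega, ?_⟩
            funext i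
            apply Fin.ext
            rw [Int.toNat_of_nonneg h0, ← hw i, Fin.ofNat_eq_cast, Fin.val_natCast]
            change _ = pt m (((i : ℕ) : ℤ) + c)
            conv_rhs => rw [← Int.emod_add_mul_ediv c (per m : ℤ)]
            rw [← add_assoc, pt_add_per]
            exact Nat.mod_eq_of_lt (sym_lt _ _)
          rw [if_pos hwW]
          have h1 : ∑ j ∈ Finset.range n, g (fun i => x (i + j)) ≤ n * (M - δ) := by
            obtain ⟨c, rfl⟩ := hO
            simp only [hg]
            rw [Finset.sum_add_distrib]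
            have h2 : ∑ j ∈ Finset.range n, φ (pr fun i => pt m (i + j + c)) ≤ n * M := by
              calc _ ≤ ∑ j ∈ Finset.range n, M := Finset.sum_le_sum fun j _ => hφle _
                _ = n * M := by simp
            have h3 : ∑ j ∈ Finset.range n, F (fun i => pt m (i + j + c)) = (q + 1 : ℕ) * P := by
              have := sum_periodic_mul (p := per m) (f := fun k : ℤ => F (fun i => pt m (i + k)))
                (by
                  intro k
                  have : (fun i : ℤ => pt m (i + (k + per m))) = fun i => pt m (i + k) := by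
                    funext i
                    have := pt_add_per m (i + k) 1
                    rw [mul_one] at this
                    rw [← this]
                    congr 1
                    ring
                  simp only [this]) c (q + 1)
              rw [hP, hn, ← this]
              apply Finset.sum_congr rfl
              intro j _
              congr 1
              funext i
              congr 1
              ring
            have h4 : ((q + 1 : ℕ) : ℝ) * P = -(n * δ) := by
              rw [hPδ, hn]; push_cast; ring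
            rw [h3, h4]
            linarith
          have h5 := Real.exp_le_exp.mpr h1
          have h6 := (Real.exp_pos (n * B)).le
          linarith
        · have h1 : ∑ j ∈ Finset.range n, g (fun i => x (i + j)) ≤ n * B := by
            calc _ ≤ ∑ j ∈ Finset.range n, B := by
                  apply Finset.sum_le_sum
                  intro j _
                  have hnp : (pr fun i => x (i + j)) ∉ pat m := by
                    intro hp
                    exact hO (Orb_of_shift j (X_pat (shift_mem_X hx j) hp))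
                  simp only [hg, hφ]
                  rw [Set.indicator_of_notMem hnp, zero_add]
                  exact (abs_le.mp (hB _ (shift_mem_X hx j))).2
              _ = n * B := by simp
          have h5 := Real.exp_le_exp.mpr h1
          have h6 : 0 ≤ if w ∈ W then Real.exp (n * (M - δ)) else 0 := by
            split_ifs <;> positivity
          linarith)
    have h3n : (3 : ℝ) ^ n * Real.exp (n * B) = Real.exp (n * (M - δ)) := by
      have : (3 : ℝ) ^ n = Real.exp (n * Real.log 3) := by
        rw [Real.exp_nat_mul, Real.exp_log (by norm_num)]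
      rw [this, ← Real.exp_add]
      congr 1
      rw [hM]; ring
    have hup2 : Z X g n ≤ (1 + per m) * Real.exp (n * (M - δ)) := by
      refine hup.trans ?_
      rw [h3n, add_mul, one_mul]
      gcongr
    have h7 : Real.log (Z X g n) ≤ Real.log (1 + per m) + n * (M - δ) := by
      calc _ ≤ Real.log ((1 + per m) * Real.exp (n * (M - δ))) := Real.log_le_log hpos hup2
        _ = _ := by
          rw [Real.log_mul (by positivity) (Real.exp_pos _).ne', Real.log_exp]
    calc Real.log (Z X g n) / n ≤ (Real.log (1 + per m) + n * (M - δ)) / n := by gcongr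
      _ = Real.log (1 + per m) / n + (M - δ) := by
        field_simp
  linarith


/-- words of the factor -/
theorem Z_Y_zero (n : ℕ) : Z Y (fun _ => 0) n ≤ ((n + 2 : ℕ) : ℝ) ^ 2 := by
  classical
  set W : Finset (Fin n → Fin 3) := (Finset.range (n + 2) ×ˢ Finset.range (n + 2)).image
    (fun (q : ℕ × ℕ) (i : Fin n) => if (q.2 : ℤ) ∣ ((i : ℕ) : ℤ) - q.1 then (1 : Fin 3) else 0)
    with hW
  have hcard : W.card ≤ (n + 2) ^ 2 := by
    refine Finset.card_image_le.trans ?_
    simp [pow_two]
  have h := Z_upper (S := Y) (g := fun _ => 0) (n := n) (a := 0) (b := 1) le_rfl zero_le_one W (by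
    intro y hy w hw
    have hwW : w ∈ W := by
      obtain ⟨x, hx, rfl⟩ := hy
      -- approximate by an element of A
      have hopen : IsOpen {z : ℤ → ℕ | ∀ i : Fin n, z ((i : ℕ) : ℤ) = x ((i : ℕ) : ℤ)} := by
        have : {z : ℤ → ℕ | ∀ i : Fin n, z ((i : ℕ) : ℤ) = x ((i : ℕ) : ℤ)} =
            ⋂ i : Fin n, {z : ℤ → ℕ | z ((i : ℕ) : ℤ) = x ((i : ℕ) : ℤ)} := by
          ext z; simp
        rw [this]
        apply isOpen_iInter_of_finite
        intro i
        have hc : Continuous fun z : ℤ → ℕ => z ((i : ℕ) : ℤ) := continuous_apply _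
        exact (isOpen_discrete {x ((i : ℕ) : ℤ)}).preimage hc
      obtain ⟨z, hz1, hz2⟩ := mem_closure_iff.mp hx _ hopen (fun i => rfl)
      obtain ⟨m, c, rfl⟩ := hz2
      have hw' : ∀ i : Fin n, ((w i : Fin 3) : ℕ) =
          if (per m : ℤ) ∣ ((i : ℕ) : ℤ) + c + 1 then 1 else 0 := by
        intro i
        rw [← hw i, ← pr_pt]
        have := hz1 i
        simp only at this
        simp only [pr]
        rw [this]
      have hp : (0 : ℤ) < per m := by exact_mod_cast per_pos m
      have h0 : 0 ≤ (-c - 1) % (per m : ℤ) := Int.emod_nonneg _ hp.ne'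
      have h1 : (-c - 1) % (per m : ℤ) < per m := Int.emod_lt_of_pos _ hp
      have hd : ∀ i : ℤ, ((per m : ℤ) ∣ i + c + 1 ↔ (per m : ℤ) ∣ i - (-c - 1) % (per m : ℤ)) := by
        intro i
        have e : i - (-c - 1) % (per m : ℤ) = (i + c + 1) + per m * ((-c - 1) / per m) := by
          rw [Int.emod_def]; ring
        rw [e]
        constructor
        · intro h; exact dvd_add h (dvd_mul_right _ _)
        · intro h
          exact (dvd_add_left (dvd_mul_right _ _)).mp h
      rw [hW, Finset.mem_image]
      by_cases hpn : per m < n + 2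
      · refine ⟨(((-c - 1) % (per m : ℤ)).toNat, per m), ?_, ?_⟩
        · simp only [Finset.mem_product, Finset.mem_range]
          omega
        · funext i
          apply Fin.ext
          rw [hw' i]
          simp only [Int.toNat_of_nonneg h0]
          by_cases hdi : (per m : ℤ) ∣ ((i : ℕ) : ℤ) + c + 1
          · rw [if_pos hdi, if_pos ((hd _).mp hdi)]; rfl
          · rw [if_neg hdi, if_neg (fun h => hdi ((hd _).mpr h))]; rfl
      · refine ⟨(min ((-c - 1) % (per m : ℤ)).toNat n, n + 1), ?_, ?_⟩
        · simp only [Finset.mem_product, Finset.mem_range]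
          omega
        · funext i
          apply Fin.ext
          rw [hw' i]
          have hi := i.isLt
          have key : (per m : ℤ) ∣ ((i : ℕ) : ℤ) + c + 1 ↔
              (((n + 1 : ℕ) : ℤ) ∣ ((i : ℕ) : ℤ) -
                ((min ((-c - 1) % (per m : ℤ)).toNat n : ℕ) : ℤ)) := by
            rw [hd]
            constructor
            · intro h
              have : ((i : ℕ) : ℤ) - (-c - 1) % (per m : ℤ) = 0 := by
                apply Int.eq_zero_of_abs_lt_dvd h
                rw [abs_lt]; omega
              have e : (min ((-c - 1) % (per m : ℤ)).toNat n : ℕ) = (i : ℕ) := by omega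
              rw [e, sub_self]
              exact dvd_zero _
            · intro h
              have h5 : ((i : ℕ) : ℤ) - ((min ((-c - 1) % (per m : ℤ)).toNat n : ℕ) : ℤ) = 0 := by
                apply Int.eq_zero_of_abs_lt_dvd h
                rw [abs_lt]; omega
              have e : ((i : ℕ) : ℤ) = (-c - 1) % (per m : ℤ) := by omega
              rw [e, sub_self]
              exact dvd_zero _
          simp only
          by_cases hdi : (per m : ℤ) ∣ ((i : ℕ) : ℤ) + c + 1
          · rw [if_pos hdi, if_pos (key.mp hdi)]; rfl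
          · rw [if_neg hdi, if_neg (fun h => hdi (key.mpr h))]; rfl
    simp [hwW])
  calc Z Y (fun _ => 0) n ≤ 3 ^ n * 0 + W.card * 1 := h
    _ = (W.card : ℝ) := by ring
    _ ≤ (((n + 2) ^ 2 : ℕ) : ℝ) := by exact_mod_cast hcard
    _ = ((n + 2 : ℕ) : ℝ) ^ 2 := by push_cast; ring

/-- the full shift inside `X` -/
theorem Z_X_lower {F : (ℤ → ℕ) → ℝ} {B : ℝ} (hB : ∀ x ∈ X, |F x| ≤ B) (m : ℕ) (hm : 0 < m)
    (hP : 0 ≤ ∑ j ∈ Finset.range (per m), F (fun i => pt m (i + j))) :
    2 ^ m * Real.exp (-B) ≤ Z X F m := by
  have h1 := Z_lower (S := X) (g := F) (B := B) (n := m)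
    (fun x hx j => (abs_le.mp (hB _ (shift_mem_X hx j))).2)
    (Finset.range (2 ^ m)) (fun u i => pt m (i + (u * m : ℕ)))
    (fun u _ => Orb_subset_X m ⟨((u * m : ℕ) : ℤ), rfl⟩)
    (fun u _ i => sym_lt _ _) (by
      intro u hu v hv huv
      rw [Finset.mem_range] at hu hv
      have key : ∀ u : ℕ, u < 2 ^ m → ∀ i : ℕ, i < m →
          pt m ((i : ℤ) + (u * m : ℕ)) = if Nat.testBit u i then 1 else 0 := by
        intro u hu i hi
        have hlt : i + u * m < m * 2 ^ m := by
          have : (u + 1) * m ≤ 2 ^ m * m := Nat.mul_le_mul_right m hu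
          nlinarith
        have e1 : ((i : ℤ) + (u * m : ℕ)) % (per m : ℤ) = ((i + u * m : ℕ) : ℤ) := by
          rw [Int.emod_eq_of_lt]
          · push_cast; ring
          · positivity
          · unfold per; push_cast; zify at hlt; linarith
        have e2 : (i + u * m) / m = u := by
          rw [Nat.add_mul_div_right _ _ hm, Nat.div_eq_of_lt hi, zero_add]
        have e3 : (i + u * m) % m = i := by
          rw [Nat.add_mul_mod_self_right, Nat.mod_eq_of_lt hi]
        unfold pt sym
        rw [e1, Int.toNat_natCast, if_neg (by omega), e2, e3]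
      apply Nat.eq_of_testBit_eq
      intro i
      by_cases hi : i < m
      · have h2 := huv i hi
        rw [key u hu i hi, key v hv i hi] at h2
        cases h3 : Nat.testBit u i <;> cases h4 : Nat.testBit v i <;> simp_all
      · have h5 : 2 ^ m ≤ 2 ^ i := Nat.pow_le_pow_right (by norm_num) (by omega)
        rw [Nat.testBit_lt_two_pow (by omega), Nat.testBit_lt_two_pow (by omega)])
  refine le_trans ?_ h1
  set a : ℕ → ℝ := fun u => ∑ j ∈ Finset.range m, F (fun i => pt m (i + j + (u * m : ℕ))) with ha
  have hB0 : 0 ≤ B := (abs_nonneg _).trans (hB (pt m) (Orb_subset_X m ⟨0, by simp⟩))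
  have hsum : -B ≤ ∑ u ∈ Finset.range (2 ^ m), a u := by
    have h2 : ∀ q : ℕ, ∑ u ∈ Finset.range q, a u =
        ∑ r ∈ Finset.range (q * m), F (fun i => pt m (i + r)) := by
      intro q
      induction q with
      | zero => simp
      | succ q ih =>
        rw [Finset.sum_range_succ, ih, Nat.succ_mul, Finset.sum_range_add]
        congr 1
        rw [ha]
        apply Finset.sum_congr rfl
        intro j _
        congr 1
        funext i
        congr 1
        push_cast
        ring
    rw [h2]
    have h3 : per m = 2 ^ m * m + 1 := by unfold per; ring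
    rw [h3, Finset.sum_range_succ] at hP
    have h4 := (abs_le.mp (hB (fun i => pt m (i + ((2 ^ m * m : ℕ) : ℤ)))
      (Orb_subset_X m ⟨_, rfl⟩))).2
    linarith
  have hexp : ∀ u, Real.exp (-B) * (1 + (a u + B)) ≤ Real.exp (a u) := by
    intro u
    have h5 := Real.add_one_le_exp (a u + B)
    have h6 : Real.exp (a u) = Real.exp (-B) * Real.exp (a u + B) := by
      rw [← Real.exp_add]; congr 1; ring
    rw [h6]
    apply mul_le_mul_of_nonneg_left _ (Real.exp_pos _).le
    linarith
  calc 2 ^ m * Real.exp (-B) ≤ Real.exp (-B) * (2 ^ m + (∑ u ∈ Finset.range (2 ^ m), a u) +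
        2 ^ m * B) := by
        have h7 : (1 : ℝ) ≤ 2 ^ m := one_le_pow₀ (by norm_num)
        have h8 : B ≤ 2 ^ m * B := le_mul_of_one_le_left hB0 h7
        rw [mul_comm]
        apply mul_le_mul_of_nonneg_left _ (Real.exp_pos _).le
        linarith
    _ = ∑ u ∈ Finset.range (2 ^ m), Real.exp (-B) * (1 + (a u + B)) := by
        rw [← Finset.mul_sum, Finset.sum_add_distrib, Finset.sum_add_distrib]
        simp
        ring
    _ ≤ ∑ u ∈ Finset.range (2 ^ m), Real.exp (a u) := Finset.sum_le_sum fun u _ => hexp u


theorem main_contra {F : (ℤ → ℕ) → ℝ} (hF : ContinuousOn F X)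
    (H : ∀ φ : (ℤ → ℕ) → ℝ, ContinuousOn φ Y → ∃ L : ℝ,
      Tendsto (fun n : ℕ => Real.log (Z Y φ n) / (n : ℝ)) atTop (𝓝 L) ∧
      Tendsto (fun n : ℕ => Real.log (Z X (fun x => φ (pr x) + F x) n) / (n : ℝ)) atTop (𝓝 L)) :
    False := by
  obtain ⟨B, hB⟩ := isCompact_X.exists_bound_of_continuousOn hF
  simp only [Real.norm_eq_abs] at hB
  have hB0 : 0 ≤ B := (abs_nonneg _).trans (hB (pt 0) (Orb_subset_X 0 ⟨0, by simp⟩))
  obtain ⟨L, hY, hX⟩ := H (fun _ => 0) continuousOn_const
  simp only [zero_add] at hX
  have hL1 : Real.log 2 ≤ L := by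
    have hlim : Tendsto (fun m : ℕ => Real.log 2 - B / (m : ℝ)) atTop (𝓝 (Real.log 2 - 0)) := by
      apply Tendsto.const_sub
      exact Tendsto.div_atTop tendsto_const_nhds tendsto_natCast_atTop_atTop
    rw [sub_zero] at hlim
    refine le_of_tendsto_of_tendsto hlim hX ?_
    filter_upwards [eventually_gt_atTop 0] with m hm
    have hm' : (0 : ℝ) < m := by exact_mod_cast hm
    have h1 := Z_X_lower hB m hm (per_sum_nonneg hB0 hB H m)
    have h2 : Real.log (2 ^ m * Real.exp (-B)) ≤ Real.log (Z X F m) :=
      Real.log_le_log (by positivity) h1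
    rw [Real.log_mul (by positivity) (Real.exp_pos _).ne', Real.log_exp, Real.log_pow] at h2
    calc Real.log 2 - B / m = (m * Real.log 2 + -B) / m := by field_simp; ring
      _ ≤ _ := by gcongr
  have hL2 : L ≤ 0 := by
    have hlim : Tendsto (fun n : ℕ => 4 * (Real.log ((n + 2 : ℕ) : ℝ) / ((n + 2 : ℕ) : ℝ))) atTop
        (𝓝 (4 * 0)) := by
      apply Tendsto.const_mul
      have h1 : Tendsto (fun x : ℝ => Real.log x / x) atTop (𝓝 0) :=
        Real.isLittleO_log_id_atTop.tendsto_div_nhds_zero
      have h2 : Tendsto (fun n : ℕ => ((n + 2 : ℕ) : ℝ)) atTop atTop :=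
        tendsto_natCast_atTop_atTop.comp (tendsto_add_atTop_nat 2)
      exact h1.comp h2
    rw [mul_zero] at hlim
    refine le_of_tendsto_of_tendsto hY hlim ?_
    filter_upwards [eventually_gt_atTop 1] with n hn
    have hn' : (0 : ℝ) < n := by exact_mod_cast (by omega : 0 < n)
    have hn2 : (2 : ℝ) ≤ n := by exact_mod_cast hn
    have hl0 : 0 ≤ Real.log ((n + 2 : ℕ) : ℝ) := Real.log_natCast_nonneg _
    have h1 : Real.log (Z Y (fun _ => 0) n) ≤ 2 * Real.log ((n + 2 : ℕ) : ℝ) := by
      rcases lt_or_ge 0 (Z Y (fun _ => 0) n) with h | h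
      · calc _ ≤ Real.log (((n + 2 : ℕ) : ℝ) ^ 2) := Real.log_le_log h (Z_Y_zero n)
          _ = _ := by rw [Real.log_pow]; norm_num
      · have h0 : 0 ≤ Z Y (fun _ => 0) n := by
          apply Finset.sum_nonneg
          intro w _
          apply Real.sSup_nonneg
          rintro _ ⟨y, _, rfl⟩
          exact (Real.exp_pos _).le
        rw [le_antisymm h h0, Real.log_zero]
        positivity
    rw [div_le_iff₀ hn']
    have h3 : (0 : ℝ) < ((n + 2 : ℕ) : ℝ) := by positivity
    calc Real.log (Z Y (fun _ => 0) n) ≤ 2 * Real.log ((n + 2 : ℕ) : ℝ) := h1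
      _ = 4 * (Real.log ((n + 2 : ℕ) : ℝ) / ((n + 2 : ℕ) : ℝ)) * (((n + 2 : ℕ) : ℝ) / 2) := by
        field_simp; ring
      _ ≤ 4 * (Real.log ((n + 2 : ℕ) : ℝ) / ((n + 2 : ℕ) : ℝ)) * n := by
        gcongr
        push_cast
        linarith
  have := Real.log_pos (by norm_num : (1 : ℝ) < 2)
  linarith

end Pool.Agent.MP_52d740_an
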